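import Mathlib
import Pool.Agent.U180.NG.Stm

/-! Project NG, package VARP. -/

set_option autoImplicit false

open MeasureTheory ProbabilityTheory Filter Topology
open Pool.Agent.U180.NG

namespace Pool.Agent.U427.NG

theorem t_VARP (h1 : S_VARY) (h2 : S_PZ) (_h3 : S_PHI) : S_VARP := by
  intro δ hδ hδ1
  obtain ⟨c, R₀, hc, hV⟩ := h1 δ hδ hδ1
  refine ⟨c, max R₀ 0, hc, ?_⟩
  intro ρ μ hμ hsupp R B hR hB
  have := hμ
  have hP := (h2 δ μ hδ hμ).2 R
  have hI2 : ∀ z : ℤ × ℤ, Integrable (fun y => phi δ R y z * (1 - phi δ R y z)) μ := by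
    intro z
    have h := (hP z).2.1.sub (hP z).2.2
    refine h.congr (Eventually.of_forall fun y => ?_)
    simp only [Pi.sub_apply]
    ring
  have key : ∀ z : ℤ × ℤ, ∫ y, phi δ R y z * (1 - phi δ R y z) ∂μ ≤
      (noiseLaw δ μ).real (disc R z) * (1 - (noiseLaw δ μ).real (disc R z)) := by
    intro z
    obtain ⟨hp, hi1, hi2⟩ := hP z
    rw [hp]
    set p : ℝ := ∫ y, phi δ R y z ∂μ with hpdef
    have e1 : ∫ y, phi δ R y z * (1 - phi δ R y z) ∂μ = p - ∫ y, phi δ R y z ^ 2 ∂μ := by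
      rw [hpdef, ← integral_sub hi1 hi2]
      refine integral_congr_ae (Eventually.of_forall fun y => ?_)
      simp only
      ring
    have e2 : 0 ≤ ∫ y, (phi δ R y z - p) ^ 2 ∂μ := integral_nonneg fun y => sq_nonneg _
    have e3 : ∫ y, (phi δ R y z - p) ^ 2 ∂μ = ∫ y, phi δ R y z ^ 2 ∂μ - p ^ 2 := by
      have hsub : Integrable (fun y => phi δ R y z ^ 2 - 2 * p * phi δ R y z) μ :=
        hi2.sub (hi1.const_mul (2 * p))
      have e4 : ∫ y, (phi δ R y z - p) ^ 2 ∂μ =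
          ∫ y, ((phi δ R y z ^ 2 - 2 * p * phi δ R y z) + p ^ 2) ∂μ := by
        refine integral_congr_ae (Eventually.of_forall fun y => ?_)
        simp only
        ring
      have e5 : ∫ y, ((phi δ R y z ^ 2 - 2 * p * phi δ R y z) + p ^ 2) ∂μ =
          ∫ y, (phi δ R y z ^ 2 - 2 * p * phi δ R y z) ∂μ + ∫ _y, p ^ 2 ∂μ :=
        integral_add hsub (integrable_const _)
      have e6 : ∫ y, (phi δ R y z ^ 2 - 2 * p * phi δ R y z) ∂μ =
          ∫ y, phi δ R y z ^ 2 ∂μ - ∫ y, 2 * p * phi δ R y z ∂μ :=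
        integral_sub hi2 (hi1.const_mul (2 * p))
      have e7 : ∫ y, 2 * p * phi δ R y z ∂μ = 2 * p * p := by
        rw [integral_const_mul, ← hpdef]
      have e8 : ∫ _y : ℝ × ℝ, p ^ 2 ∂μ = p ^ 2 := by
        rw [integral_const]
        simp
      rw [e4, e5, e6, e7, e8]
      ring
    rw [e1]
    nlinarith
  have hsum : ∫ y, ∑ z ∈ box B, phi δ R y z * (1 - phi δ R y z) ∂μ =
      ∑ z ∈ box B, ∫ y, phi δ R y z * (1 - phi δ R y z) ∂μ :=
    integral_finsetSum _ fun z _ => hI2 z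
  have hlow : c * R ≤ ∫ y, ∑ z ∈ box B, phi δ R y z * (1 - phi δ R y z) ∂μ := by
    have e0 : ∫ _y : ℝ × ℝ, c * R ∂μ = c * R := by
      rw [integral_const]
      simp
    rw [← e0]
    refine integral_mono_ae (integrable_const _) (integrable_finsetSum _ fun z _ => hI2 z) ?_
    filter_upwards [hsupp] with y hy
    exact hV R y B (le_trans (le_max_left _ _) hR) (by linarith [hy.1, hy.2])
  exact hlow.trans (hsum.le.trans (Finset.sum_le_sum fun z _ => key z))

end Pool.Agent.U427.NG
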